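import Pool.Agent.H21.UE.Defs

/-!
# CNT: most exponents are balanced
-/

set_option autoImplicit false

namespace Pool.Agent.H21.UE

open Finset

namespace CNTaux

variable {ι : Type} [Fintype ι] [DecidableEq ι]

lemma mem_anti {r : ℕ} {j : ι → ℕ} :
    j ∈ Finset.piAntidiag (Finset.univ : Finset ι) r ↔ ∑ i, j i = r := by
  rw [Finset.mem_piAntidiag]
  simp

lemma sum_swap (r : ℕ) (i i' : ι) :
    ∑ j ∈ Finset.piAntidiag (Finset.univ : Finset ι) r, (j i : ℝ) =
      ∑ j ∈ Finset.piAntidiag (Finset.univ : Finset ι) r, (j i' : ℝ) := by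
  have hm : ∀ j ∈ Finset.piAntidiag (Finset.univ : Finset ι) r,
      (j ∘ Equiv.swap i i') ∈ Finset.piAntidiag (Finset.univ : Finset ι) r := by
    intro j hj
    rw [mem_anti] at hj ⊢
    rw [← hj]
    exact Equiv.sum_comp (Equiv.swap i i') j
  refine Finset.sum_nbij' (fun j => j ∘ Equiv.swap i i') (fun j => j ∘ Equiv.swap i i') hm hm
    ?_ ?_ ?_
  · intro j _
    funext k
    simp
  · intro j _
    funext k
    simp
  · intro j _
    simp

lemma sum_coord [Nonempty ι] (r : ℕ) (i : ι) :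
    (Fintype.card ι : ℝ) * ∑ j ∈ Finset.piAntidiag (Finset.univ : Finset ι) r, (j i : ℝ) =
      r * (Finset.piAntidiag (Finset.univ : Finset ι) r).card := by
  have h1 : ∑ i' : ι, ∑ j ∈ Finset.piAntidiag (Finset.univ : Finset ι) r, (j i' : ℝ) =
      (Fintype.card ι : ℝ) * ∑ j ∈ Finset.piAntidiag (Finset.univ : Finset ι) r, (j i : ℝ) := by
    rw [Finset.sum_congr rfl fun i' _ => sum_swap r i' i]
    rw [Finset.sum_const, Finset.card_univ, nsmul_eq_mul]
  rw [← h1, Finset.sum_comm]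
  have h2 : ∀ j ∈ Finset.piAntidiag (Finset.univ : Finset ι) r, ∑ i' : ι, (j i' : ℝ) = r := by
    intro j hj
    rw [mem_anti] at hj
    exact_mod_cast hj
  rw [Finset.sum_congr rfl h2, Finset.sum_const, nsmul_eq_mul]
  ring

/-- the centred coordinate -/
noncomputable def dev (r : ℕ) (i : ι) (j : ι → ℕ) : ℝ := (j i : ℝ) / r - 1 / Fintype.card ι

lemma sum_dev [Nonempty ι] {r : ℕ} (hr : 1 ≤ r) (i : ι) :
    ∑ j ∈ Finset.piAntidiag (Finset.univ : Finset ι) r, dev r i j = 0 := by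
  have hn : (0:ℝ) < Fintype.card ι := by exact_mod_cast Fintype.card_pos
  have hr' : (0:ℝ) < r := by exact_mod_cast hr
  have h := sum_coord (ι := ι) r i
  unfold dev
  rw [Finset.sum_sub_distrib, ← Finset.sum_div, Finset.sum_const, nsmul_eq_mul]
  field_simp
  linarith

lemma dev_sq_le [Nonempty ι] {r : ℕ} (hr : 1 ≤ r) (i : ι) {j : ι → ℕ}
    (hj : j ∈ Finset.piAntidiag (Finset.univ : Finset ι) r) : dev r i j ^ 2 ≤ 1 := by
  have hn : (1:ℝ) ≤ Fintype.card ι := by exact_mod_cast Fintype.card_pos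
  have hr' : (0:ℝ) < r := by exact_mod_cast hr
  rw [mem_anti] at hj
  have h1 : j i ≤ r := by
    rw [← hj]
    exact Finset.single_le_sum (fun _ _ => Nat.zero_le _) (Finset.mem_univ i)
  have h2 : (j i : ℝ) / r ≤ 1 := by
    rw [div_le_one hr']
    exact_mod_cast h1
  have h3 : (0:ℝ) ≤ (j i : ℝ) / r := by positivity
  have h4 : (1:ℝ) / Fintype.card ι ≤ 1 := by
    rw [div_le_one (by linarith)]
    exact hn
  have h5 : (0:ℝ) ≤ (1:ℝ) / Fintype.card ι := by positivity
  rw [sq_le_one_iff_abs_le_one, abs_le]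
  unfold dev
  constructor <;> linarith

lemma cross [Nonempty ι] {m : ℕ} (r : Fin m → ℕ) (i : ι) (hr : ∀ h, 1 ≤ r h) {h h' : Fin m}
    (hh : h ≠ h') :
    ∑ J ∈ Fintype.piFinset fun h => Finset.piAntidiag (Finset.univ : Finset ι) (r h),
      dev (r h) i (J h) * dev (r h') i (J h') = 0 := by
  set F : ∀ _k : Fin m, (ι → ℕ) → ℝ := fun k j =>
    (if k = h then dev (r k) i j else 1) * (if k = h' then dev (r k) i j else 1) with hF
  have h1 : ∀ J : Fin m → ι → ℕ, ∏ k, F k (J k) = dev (r h) i (J h) * dev (r h') i (J h') := by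
    intro J
    simp only [hF]
    rw [Finset.prod_mul_distrib, Finset.prod_ite_eq' , Finset.prod_ite_eq']
    simp
  rw [← Finset.sum_congr rfl fun J _ => h1 J]
  rw [← Finset.prod_univ_sum]
  refine Finset.prod_eq_zero (Finset.mem_univ h) ?_
  simp only [hF]
  simp only [if_true, if_neg hh, mul_one]
  exact sum_dev (hr h) i

lemma sum_sq_le [Nonempty ι] {m : ℕ} (r : Fin m → ℕ) (i : ι) (hr : ∀ h, 1 ≤ r h) :
    ∑ J ∈ Fintype.piFinset fun h => Finset.piAntidiag (Finset.univ : Finset ι) (r h),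
      (∑ h, dev (r h) i (J h)) ^ 2 ≤
    m * (Fintype.piFinset fun h => Finset.piAntidiag (Finset.univ : Finset ι) (r h)).card := by
  set Ω := Fintype.piFinset fun h => Finset.piAntidiag (Finset.univ : Finset ι) (r h) with hΩ
  have h1 : ∀ J : Fin m → ι → ℕ, (∑ h, dev (r h) i (J h)) ^ 2 =
      ∑ h, ∑ h', dev (r h) i (J h) * dev (r h') i (J h') := by
    intro J
    rw [sq, Finset.sum_mul_sum]
  rw [Finset.sum_congr rfl fun J _ => h1 J, Finset.sum_comm]
  have h2 : ∀ h : Fin m, ∑ J ∈ Ω, ∑ h', dev (r h) i (J h) * dev (r h') i (J h') ≤ Ω.card := by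
    intro h
    rw [Finset.sum_comm, Finset.sum_eq_single h]
    · calc ∑ J ∈ Ω, dev (r h) i (J h) * dev (r h) i (J h) ≤ ∑ _J ∈ Ω, (1:ℝ) := by
            refine Finset.sum_le_sum fun J hJ => ?_
            rw [← sq]
            exact dev_sq_le (hr h) i (Fintype.mem_piFinset.mp hJ h)
        _ = Ω.card := by simp
    · intro h' _ hne
      exact cross r i hr (Ne.symm hne)
    · intro hcon
      exact absurd (Finset.mem_univ h) hcon
  refine (Finset.sum_le_sum fun h _ => h2 h).trans ?_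
  simp

end CNTaux

open CNTaux in
theorem CNT : T_CNT := by
  intro ι _ _ _ m r i ε hr hε
  set Ω := Fintype.piFinset fun h => Finset.piAntidiag (Finset.univ : Finset ι) (r h) with hΩ
  rcases Nat.eq_zero_or_pos m with hm | hm
  · subst hm
    simp
  have hm' : (0:ℝ) < m := by exact_mod_cast hm
  have hD : ∀ J : Fin m → ι → ℕ, (∑ h, (J h i : ℝ) / r h - m / Fintype.card ι) =
      ∑ h, dev (r h) i (J h) := by
    intro J
    unfold dev
    rw [Finset.sum_sub_distrib, Finset.sum_const, Finset.card_univ, Fintype.card_fin,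
      nsmul_eq_mul]
    ring
  have h1 := sum_sq_le r i hr
  rw [← hΩ] at h1
  generalize hS : (Ω.filter fun J : Fin m → ι → ℕ =>
      ε * m < |∑ h, (J h i : ℝ) / r h - m / Fintype.card ι|) = S
  have hSm : ∀ J ∈ S, J ∈ Ω ∧ ε * m < |∑ h, dev (r h) i (J h)| := by
    intro J hJ
    rw [← hS, Finset.mem_filter, hD] at hJ
    exact hJ
  have h2 : S.card • (ε * m) ^ 2 ≤ ∑ J ∈ S, (∑ h, dev (r h) i (J h)) ^ 2 := by
    refine Finset.card_nsmul_le_sum _ _ _ fun J hJ => ?_
    rw [← sq_abs (∑ h, dev (r h) i (J h))]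
    exact pow_le_pow_left₀ (by positivity) (hSm J hJ).2.le 2
  have h3 : ∑ J ∈ S, (∑ h, dev (r h) i (J h)) ^ 2 ≤ ∑ J ∈ Ω, (∑ h, dev (r h) i (J h)) ^ 2 :=
    Finset.sum_le_sum_of_subset_of_nonneg (fun J hJ => (hSm J hJ).1) fun _ _ _ => sq_nonneg _
  have h4 := (h2.trans h3).trans h1
  rw [nsmul_eq_mul] at h4
  have h5 : (S.card : ℝ) * (ε ^ 2 * m) * m ≤ Ω.card * m := by
    calc _ = (S.card : ℝ) * (ε * m) ^ 2 := by ring
      _ ≤ _ := h4
      _ = _ := by ring
  exact le_of_mul_le_mul_right h5 hm'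

end Pool.Agent.H21.UE
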