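import Pool.Agent.H21.UE.Defs

/-!
# PIV: the pivot lemma
-/

set_option autoImplicit false

namespace Pool.Agent.H21.UE

theorem PIV : T_PIV := by
  intro n
  induction n with
  | zero =>
    exact ⟨1, one_pos, fun ι _ _ hι A hA => ⟨Fintype.equivFinOfCardEq hι, fun a => a.elim0⟩⟩
  | succ n ih =>
    obtain ⟨D, hD, ih⟩ := ih
    refine ⟨2 * D + 1, by positivity, fun ι _ _ hι A hA => ?_⟩
    obtain ⟨e, he0, he⟩ : ∃ e : ι → ℂ, e ≠ 0 ∧ ∀ j : Fin n, ∑ i, e i * A i j.castSucc = 0 := by
      set A₁ : Matrix ι (Fin n) ℂ := fun i j => A i j.castSucc with hA₁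
      have hker : LinearMap.ker A₁.vecMulLinear ≠ ⊥ := by
        apply LinearMap.ker_ne_bot_of_finrank_lt
        simp [hι]
      obtain ⟨e, he, he0⟩ := Submodule.exists_mem_ne_zero_of_ne_bot hker
      refine ⟨e, he0, fun j => ?_⟩
      have h1 : A₁.vecMulLinear e = 0 := he
      have h2 := congrFun h1 j
      simpa [Matrix.vecMulLinear, Matrix.vecMul, dotProduct, hA₁] using h2
    have hne : (Finset.univ : Finset ι).Nonempty := by
      rw [← Finset.card_pos, Finset.card_univ, hι]
      omega
    obtain ⟨i0, _, hmax⟩ := Finset.exists_max_image Finset.univ (fun i => ‖e i‖) hne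
    have hpos : 0 < ‖e i0‖ := by
      obtain ⟨i, hi⟩ := Function.ne_iff.mp he0
      exact lt_of_lt_of_le (norm_pos_iff.mpr hi) (hmax i (Finset.mem_univ _))
    have key : ∀ t : Fin (n + 1) → ℂ, t (Fin.last n) = 0 →
        ‖A.mulVec t i0‖ ≤ ∑ i : {i // i ≠ i0}, ‖A.mulVec t i‖ := by
      intro t ht
      have h1 : ∑ i, e i * A.mulVec t i = 0 := by
        simp only [Matrix.mulVec, dotProduct, Finset.mul_sum]
        rw [Finset.sum_comm, Fin.sum_univ_castSucc, ht]
        simp only [mul_zero, Finset.sum_const_zero, add_zero]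
        refine Finset.sum_eq_zero fun j _ => ?_
        have h2 : ∑ i, e i * (A i j.castSucc * t j.castSucc) =
            (∑ i, e i * A i j.castSucc) * t j.castSucc := by
          rw [Finset.sum_mul]
          exact Finset.sum_congr rfl fun i _ => by ring
        rw [h2, he j, zero_mul]
      rw [Fintype.sum_eq_add_sum_subtype_ne _ i0] at h1
      have h2 : e i0 * A.mulVec t i0 = -∑ i : {i // i ≠ i0}, e i * A.mulVec t i :=
        eq_neg_of_add_eq_zero_left h1
      have h3 : ‖e i0‖ * ‖A.mulVec t i0‖ ≤ ‖e i0‖ * ∑ i : {i // i ≠ i0}, ‖A.mulVec t i‖ := by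
        rw [← norm_mul, h2, norm_neg, Finset.mul_sum]
        refine (norm_sum_le _ _).trans (Finset.sum_le_sum fun i _ => ?_)
        rw [norm_mul]
        exact mul_le_mul_of_nonneg_right (hmax i (Finset.mem_univ _)) (norm_nonneg _)
      exact le_of_mul_le_mul_left h3 hpos
    have hcard : Fintype.card {i // i ≠ i0} = n := by
      rw [Fintype.card_subtype_compl, Fintype.card_subtype_eq, hι]
      omega
    set A' : Matrix {i // i ≠ i0} (Fin n) ℂ := fun i j => A i j.castSucc with hA'
    have hmul : ∀ (t : Fin (n + 1) → ℂ), t (Fin.last n) = 0 → ∀ i : {i // i ≠ i0},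
        A'.mulVec (fun j => t j.castSucc) i = A.mulVec t i := by
      intro t ht i
      simp only [Matrix.mulVec, dotProduct, hA']
      rw [Fin.sum_univ_castSucc, ht, mul_zero, add_zero]
    have hinj : Function.Injective A'.mulVec := by
      have h0 : ∀ t' : Fin n → ℂ, A'.mulVec t' = 0 → t' = 0 := by
        intro t' ht'
        set t : Fin (n + 1) → ℂ := Fin.snoc t' 0 with ht
        have hlast : t (Fin.last n) = 0 := by simp [ht]
        have hcast : (fun j => t j.castSucc) = t' := by
          funext j
          simp [ht]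
        have h1 : ∀ i : {i // i ≠ i0}, A.mulVec t i = 0 := by
          intro i
          rw [← hmul t hlast i, hcast, ht']
          rfl
        have h2 := key t hlast
        have h3 : ∑ i : {i // i ≠ i0}, ‖A.mulVec t i‖ = 0 :=
          Finset.sum_eq_zero fun i _ => by rw [h1 i, norm_zero]
        rw [h3] at h2
        have h4 : A.mulVec t = 0 := by
          funext i
          by_cases hi : i = i0
          · rw [hi]
            exact norm_le_zero_iff.mp h2
          · exact h1 ⟨i, hi⟩
        have h5 : t = 0 := hA (by rw [h4, Matrix.mulVec_zero])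
        rw [← hcast, h5]
        rfl
      intro a b hab
      have := h0 (a - b) (by
        rw [Matrix.mulVec_sub]
        exact sub_eq_zero.mpr hab)
      exact sub_eq_zero.mp this
    obtain ⟨π', hπ'⟩ := ih {i // i ≠ i0} hcard A' hinj
    set f : ι → Fin (n + 1) := fun i => if h : i = i0 then Fin.last n else (π' ⟨i, h⟩).castSucc
      with hf
    have hf0 : f i0 = Fin.last n := by simp [hf]
    have hf1 : ∀ i : {i // i ≠ i0}, f i = (π' i).castSucc := by
      intro i
      simp [hf, i.2]
    have hfinj : Function.Injective f := by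
      intro a b hab
      by_cases ha : a = i0 <;> by_cases hb : b = i0
      · rw [ha, hb]
      · rw [ha, hf0, hf1 ⟨b, hb⟩] at hab
        exact absurd hab.symm (Fin.castSucc_ne_last _)
      · rw [hb, hf0, hf1 ⟨a, ha⟩] at hab
        exact absurd hab (Fin.castSucc_ne_last _)
      · rw [hf1 ⟨a, ha⟩, hf1 ⟨b, hb⟩, Fin.castSucc_inj] at hab
        have := π'.injective hab
        exact congrArg Subtype.val this
    have hfbij : Function.Bijective f :=
      (Fintype.bijective_iff_injective_and_card f).mpr ⟨hfinj, by rw [hι, Fintype.card_fin]⟩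
    refine ⟨Equiv.ofBijective f hfbij, fun a t ht => ?_⟩
    simp only [Equiv.ofBijective_apply]
    rcases Fin.eq_castSucc_or_eq_last a with ⟨a', rfl⟩ | rfl
    · have hlast : t (Fin.last n) = 0 := ht _ (Fin.castSucc_lt_last a')
      have h1 := hπ' a' (fun j => t j.castSucc) (fun b hb => ht _ (by
        exact Fin.castSucc_lt_castSucc_iff.mpr hb))
      simp only [hmul t hlast] at h1
      have h2 := key t hlast
      rw [Fintype.sum_eq_add_sum_subtype_ne _ i0]
      have h3 : ∑ i ∈ Finset.univ.filter (fun i => f i ≤ a'.castSucc), ‖A.mulVec t i‖ =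
          ∑ i ∈ Finset.univ.filter (fun i => π' i ≤ a'), ‖A.mulVec t (i : {i // i ≠ i0})‖ := by
        rw [Finset.sum_filter, Finset.sum_filter, Fintype.sum_eq_add_sum_subtype_ne _ i0, hf0,
          if_neg (by simp), zero_add]
        refine Finset.sum_congr rfl fun i _ => ?_
        rw [hf1 i]
        simp only [Fin.castSucc_le_castSucc_iff]
      rw [h3]
      have h4 : 0 ≤ ∑ i ∈ Finset.univ.filter (fun i => π' i ≤ a'),
          ‖A.mulVec t (i : {i // i ≠ i0})‖ := Finset.sum_nonneg fun _ _ => norm_nonneg _
      nlinarith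
    · have h3 : Finset.univ.filter (fun i => f i ≤ Fin.last n) = Finset.univ := by
        ext i
        simp [Fin.le_last]
      rw [h3]
      have h4 : 0 ≤ ∑ i, ‖A.mulVec t i‖ := Finset.sum_nonneg fun _ _ => norm_nonneg _
      nlinarith

end Pool.Agent.H21.UE
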